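import Mathlib

/-! # From exponential moments to Gaussian moments -/

set_option autoImplicit false

open MeasureTheory Filter Topology
open scoped Nat

namespace Pool.Agent.N245.SG

theorem fact_le (m : ℕ) : ((2 * m)! : ℝ) ≤ (m ! : ℝ) * (2 * m : ℝ) ^ m := by
  have h1 := Nat.factorial_mul_ascFactorial m m
  have h2 := Nat.ascFactorial_le_pow_add m m
  have h3 : (2 * m)! ≤ m ! * (2 * m) ^ m := by
    rw [two_mul, ← h1]
    exact Nat.mul_le_mul_left _ h2
  exact_mod_cast h3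

/-- A pointwise bound for even powers. -/
theorem pow_le_exp (y : ℝ) (m : ℕ) {l : ℝ} (hl : 0 < l) :
    y ^ (2 * m) ≤ (2 * m)! / l ^ (2 * m) * (Real.exp (l * y) + Real.exp (-(l * y))) := by
  have h1 := Real.pow_div_factorial_le_exp (x := l * |y|) (by positivity) (2 * m)
  have h2 : Real.exp (l * |y|) ≤ Real.exp (l * y) + Real.exp (-(l * y)) := by
    rcases abs_cases y with ⟨h, _⟩ | ⟨h, _⟩
    · rw [h]
      linarith [Real.exp_pos (-(l * y))]
    · rw [h, mul_neg]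
      linarith [Real.exp_pos (l * y)]
  rw [mul_pow, pow_mul |y|, sq_abs, ← pow_mul y, div_le_iff₀ (by positivity)] at h1
  rw [div_mul_eq_mul_div, le_div_iff₀ (by positivity)]
  calc y ^ (2 * m) * l ^ (2 * m) = l ^ (2 * m) * y ^ (2 * m) := by ring
    _ ≤ Real.exp (l * |y|) * (2 * m)! := h1
    _ ≤ (Real.exp (l * y) + Real.exp (-(l * y))) * (2 * m)! := by gcongr
    _ = _ := by ring

variable {Ω : Type*} [MeasurableSpace Ω] {μ : Measure Ω} [IsProbabilityMeasure μ]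

theorem moment_bound {Y : Ω → ℝ} (hY : Measurable Y) {B : ℝ} (hB : ∀ ω, |Y ω| ≤ B)
    (hmgf : ∀ l : ℝ, ∫ ω, Real.exp (l * Y ω) ∂μ ≤ Real.exp (l ^ 2 / 2)) (m : ℕ) (hm : 1 ≤ m) :
    ∫ ω, Y ω ^ (2 * m) ∂μ ≤ 2 * (m ! : ℝ) * Real.exp m := by
  have hint : ∀ l : ℝ, Integrable (fun ω => Real.exp (l * Y ω)) μ := by
    intro l
    apply Integrable.of_bound (C := Real.exp (|l| * B))
    · exact (Real.measurable_exp.comp (hY.const_mul l)).aestronglyMeasurable
    · refine ae_of_all _ fun ω => ?_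
      rw [Real.norm_eq_abs, Real.abs_exp, Real.exp_le_exp]
      calc l * Y ω ≤ |l * Y ω| := le_abs_self _
        _ = |l| * |Y ω| := abs_mul _ _
        _ ≤ |l| * B := by gcongr; exact hB ω
  set l : ℝ := Real.sqrt (2 * m) with hl
  have hm0 : (0 : ℝ) < 2 * m := by
    have : (1 : ℝ) ≤ m := by exact_mod_cast hm
    linarith
  have hl0 : 0 < l := Real.sqrt_pos.2 hm0
  have hl2 : l ^ 2 = 2 * m := Real.sq_sqrt hm0.le
  have h1 : ∫ ω, Y ω ^ (2 * m) ∂μ ≤
      ∫ ω, (2 * m)! / l ^ (2 * m) * (Real.exp (l * Y ω) + Real.exp (-l * Y ω)) ∂μ := by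
    apply integral_mono
    · apply Integrable.of_bound (C := B ^ (2 * m))
      · exact (hY.pow_const _).aestronglyMeasurable
      · refine ae_of_all _ fun ω => ?_
        rw [Real.norm_eq_abs, abs_pow]
        exact pow_le_pow_left₀ (abs_nonneg _) (hB ω) _
    · exact ((hint l).add (hint (-l))).const_mul _
    · intro ω
      have := pow_le_exp (Y ω) m hl0
      simp only [neg_mul]
      exact this
  refine h1.trans ?_
  rw [integral_const_mul, integral_add (hint l) (hint (-l))]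
  have h2 := hmgf l
  have h3 := hmgf (-l)
  rw [neg_sq] at h3
  have h4 : l ^ 2 / 2 = m := by rw [hl2]; ring
  rw [h4] at h2 h3
  have h5 : l ^ (2 * m) = (2 * m : ℝ) ^ m := by rw [pow_mul, hl2]
  have h6 : ((2 * m)! : ℝ) / l ^ (2 * m) ≤ m ! := by
    rw [h5, div_le_iff₀ (by positivity)]
    exact fact_le m
  calc ((2 * m)! : ℝ) / l ^ (2 * m) * (∫ ω, Real.exp (l * Y ω) ∂μ + ∫ ω, Real.exp (-l * Y ω) ∂μ)
      ≤ (m ! : ℝ) * (Real.exp m + Real.exp m) := by
        apply mul_le_mul h6 (add_le_add h2 h3)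
        · exact add_nonneg (integral_nonneg fun ω => (Real.exp_pos _).le)
            (integral_nonneg fun ω => (Real.exp_pos _).le)
        · positivity
    _ = _ := by ring

theorem gauss_bound {Y : Ω → ℝ} (hY : Measurable Y) {B : ℝ} (hB : ∀ ω, |Y ω| ≤ B)
    (hmgf : ∀ l : ℝ, ∫ ω, Real.exp (l * Y ω) ∂μ ≤ Real.exp (l ^ 2 / 2)) :
    ∫ ω, Real.exp (Y ω ^ 2 / 9) ∂μ ≤ Real.exp 1 := by
  have hB0 : ∀ ω, 0 ≤ B := fun ω => (abs_nonneg _).trans (hB ω)
  have hterm : ∀ m : ℕ, ∫ ω, (Y ω ^ 2 / 9) ^ m / (m ! : ℝ) ∂μ =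
      (∫ ω, Y ω ^ (2 * m) ∂μ) / (9 ^ m * m !) := by
    intro m
    rw [← integral_div]
    congr 1
    ext ω
    rw [div_pow, ← pow_mul, div_div]
  have hint : ∀ m : ℕ, Integrable (fun ω => (Y ω ^ 2 / 9) ^ m / (m ! : ℝ)) μ := by
    intro m
    refine Integrable.of_bound (C := (B ^ 2 / 9) ^ m / (m ! : ℝ)) ?_ ?_
    · exact ((((hY.pow_const 2).div_const 9).pow_const m).div_const _).aestronglyMeasurable
    · refine ae_of_all _ fun ω => ?_
      rw [Real.norm_of_nonneg (by positivity)]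
      have : Y ω ^ 2 ≤ B ^ 2 := by
        rw [← sq_abs (Y ω)]
        exact pow_le_pow_left₀ (abs_nonneg _) (hB ω) _
      gcongr
  have hr : Real.exp 1 / 9 ≤ 1 / 3 := by
    have := Real.exp_one_lt_d9
    linarith
  have hbound : ∀ m : ℕ, (∫ ω, Y ω ^ (2 * m) ∂μ) / (9 ^ m * m !) ≤ 2 * (1 / 3 : ℝ) ^ m := by
    intro m
    rcases Nat.eq_zero_or_pos m with h0 | h0
    · subst h0
      simp
    · have h1 := moment_bound hY hB hmgf m h0
      rw [div_le_iff₀ (by positivity)]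
      refine h1.trans ?_
      have h2 : Real.exp (m : ℝ) = 9 ^ m * (Real.exp 1 / 9) ^ m := by
        rw [← mul_pow, mul_div_cancel₀ _ (by norm_num : (9 : ℝ) ≠ 0), ← Real.exp_nat_mul, mul_one]
      rw [h2]
      have h3 : (Real.exp 1 / 9) ^ m ≤ (1 / 3 : ℝ) ^ m := pow_le_pow_left₀ (by positivity) hr m
      calc 2 * (m ! : ℝ) * (9 ^ m * (Real.exp 1 / 9) ^ m) ≤ 2 * (m ! : ℝ) * (9 ^ m * (1 / 3) ^ m) := by
            gcongr
        _ = _ := by ring
  have hgeo : HasSum (fun m : ℕ => (1 / 3 : ℝ) ^ m) (3 / 2) := by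
    have := hasSum_geometric_of_lt_one (by norm_num : (0 : ℝ) ≤ 1 / 3) (by norm_num)
    convert this using 1
    norm_num
  have hnn : ∀ m : ℕ, 0 ≤ (∫ ω, Y ω ^ (2 * m) ∂μ) / (9 ^ m * m !) := by
    intro m
    apply div_nonneg _ (by positivity)
    exact integral_nonneg fun ω => by
      simp only [pow_mul]
      positivity
  have hsum : Summable fun m : ℕ => ∫ ω, ‖(Y ω ^ 2 / 9) ^ m / (m ! : ℝ)‖ ∂μ := by
    refine Summable.of_nonneg_of_le (fun m => integral_nonneg fun ω => norm_nonneg _) (fun m => ?_)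
      (hgeo.summable.mul_left 2)
    refine le_trans (le_of_eq ?_) (hbound m)
    rw [← hterm m]
    congr 1
    ext ω
    rw [Real.norm_of_nonneg (by positivity)]
  have h1 := hasSum_integral_of_summable_integral_norm hint hsum
  have h2 : ∀ ω, ∑' m : ℕ, (Y ω ^ 2 / 9) ^ m / (m ! : ℝ) = Real.exp (Y ω ^ 2 / 9) := by
    intro ω
    rw [Real.exp_eq_exp_ℝ, NormedSpace.exp_eq_tsum_div]
  simp only [h2] at h1
  -- subtract the term at zero
  have h3 : ∫ ω, Real.exp (Y ω ^ 2 / 9) ∂μ ≤ 1 + 2 * (1 / 2) := by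
    have h4 := (hasSum_nat_add_iff' (f := fun m : ℕ => ∫ ω, (Y ω ^ 2 / 9) ^ m / (m ! : ℝ) ∂μ) 1).2 h1
    have h5 := (hasSum_nat_add_iff' (f := fun m : ℕ => (1 / 3 : ℝ) ^ m) 1).2 hgeo
    have h6 := hasSum_le (fun m => by
      have := hbound (m + 1)
      rw [← hterm (m + 1)] at this
      exact this) h4 (h5.mul_left 2)
    simp only [Finset.range_one, Finset.sum_singleton, pow_zero, Nat.factorial_zero, Nat.cast_one,
      div_one, integral_const, measureReal_def, measure_univ, ENNReal.toReal_one, smul_eq_mul, mul_one] at h6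
    linarith
  have h7 : (2 : ℝ) ≤ Real.exp 1 := by
    have := Real.add_one_le_exp (1 : ℝ)
    linarith
  linarith

end Pool.Agent.N245.SG
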