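import Mathlib
import Pool.Agent.N245.SG.Mom
import Pool.Agent.H337R3.Sid2

/-! # Characters: exponential moments of quasi-independent sums, and the size condition -/

set_option autoImplicit false
set_option linter.unusedSectionVars false

open MeasureTheory Filter Topology
open scoped Nat ComplexConjugate

namespace Pool.Agent.N245.SG

universe u

open Pool.Agent.H337R3.Sid

/-- A pairing between an abelian group with a measurable structure and a discrete abelian group. -/
structure Pairing {G : Type*} [AddCommGroup G] [MeasurableSpace G] {Γ : Type u} [AddCommGroup Γ]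
    (χ : Γ → G → ℂ) : Prop where
  zero : ∀ t, χ 0 t = 1
  add : ∀ m n t, χ (m + n) t = χ m t * χ n t
  addr : ∀ n s t, χ n (s + t) = χ n s * χ n t
  norm : ∀ n t, ‖χ n t‖ = 1
  meas : ∀ n, Measurable (χ n)
  sep : ∀ n, n ≠ 0 → ∃ s, χ n s ≠ 1

variable {G : Type*} [AddCommGroup G] [MeasurableSpace G] {Γ : Type u} [AddCommGroup Γ]
  [DecidableEq Γ] {χ : Γ → G → ℂ}

theorem Pairing.neg (h : Pairing χ) (n : Γ) (t : G) : χ (-n) t = conj (χ n t) := by
  have h1 : χ n t * χ (-n) t = 1 := by
    rw [← h.add, add_neg_cancel, h.zero]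
  have h2 : χ n t * conj (χ n t) = 1 := by
    rw [Complex.mul_conj, Complex.normSq_eq_norm_sq, h.norm]
    simp
  have h3 : χ n t ≠ 0 := by
    intro h4
    rw [h4, zero_mul] at h1
    exact zero_ne_one h1
  exact mul_left_cancel₀ h3 (h1.trans h2.symm)

theorem Pairing.sum (h : Pairing χ) {ι : Type*} (s : Finset ι) (f : ι → Γ) (t : G) :
    χ (∑ i ∈ s, f i) t = ∏ i ∈ s, χ (f i) t := by
  classical
  induction s using Finset.induction_on with
  | empty => simp [h.zero]
  | insert i s hi ih => rw [Finset.sum_insert hi, Finset.prod_insert hi, h.add, ih]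

variable {μ : Measure G} [IsProbabilityMeasure μ] [μ.IsAddLeftInvariant] [MeasurableAdd G]

theorem Pairing.integral (h : Pairing χ) {n : Γ} (hn : n ≠ 0) : ∫ t, χ n t ∂μ = 0 := by
  obtain ⟨s, hs⟩ := h.sep n hn
  have h1 : ∫ t, χ n (s + t) ∂μ = ∫ t, χ n t ∂μ := integral_add_left_eq_self _ s
  simp only [h.addr] at h1
  rw [integral_const_mul] at h1
  have h2 : (χ n s - 1) * ∫ t, χ n t ∂μ = 0 := by
    rw [sub_mul, one_mul, h1, sub_self]
  rcases mul_eq_zero.1 h2 with h3 | h3
  · exact absurd (sub_eq_zero.1 h3) hs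
  · exact h3

/-- The phase of a coefficient. -/
noncomputable def ph (a : ℂ) : ℂ := a / (‖a‖ : ℂ)

theorem norm_ph_le (a : ℂ) : ‖ph a‖ ≤ 1 := by
  unfold ph
  rw [norm_div, Complex.norm_real, norm_norm]
  exact div_self_le_one _

theorem mul_ph (a : ℂ) : (‖a‖ : ℂ) * ph a = a := by
  unfold ph
  by_cases h : a = 0
  · simp [h]
  · have : (‖a‖ : ℂ) ≠ 0 := by exact_mod_cast norm_ne_zero_iff.2 h
    field_simp

/-- The coefficients of the factors. -/
noncomputable def coef (a : ℂ) (e : ℤ) : ℂ :=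
  if e = 0 then (Real.cosh ‖a‖ : ℂ) else
    (if e = 1 then (Real.sinh ‖a‖ : ℂ) * ph a / 2 else (Real.sinh ‖a‖ : ℂ) * conj (ph a) / 2)

theorem factor_eq (h : Pairing χ) (a : ℂ) (n : Γ) (t : G) :
    ((Real.cosh ‖a‖ + (ph a * χ n t).re * Real.sinh ‖a‖ : ℝ) : ℂ) =
      ∑ e ∈ ({-1, 0, 1} : Finset ℤ), coef a e * χ (e • n) t := by
  rw [Finset.sum_insert (by decide), Finset.sum_insert (by decide), Finset.sum_singleton]
  have h1 : coef a (-1) = (Real.sinh ‖a‖ : ℂ) * conj (ph a) / 2 := by simp [coef]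
  have h2 : coef a 0 = (Real.cosh ‖a‖ : ℂ) := by simp [coef]
  have h3 : coef a 1 = (Real.sinh ‖a‖ : ℂ) * ph a / 2 := by simp [coef]
  rw [h1, h2, h3, zero_smul, one_smul, neg_smul, one_smul, h.zero, h.neg]
  have h4 : (((ph a * χ n t).re : ℝ) : ℂ) = (ph a * χ n t + conj (ph a * χ n t)) / 2 :=
    Complex.re_eq_add_conj _
  push_cast at h4 ⊢
  rw [h4, map_mul]
  ring

/-- The exponential moments of a quasi-independent sum. -/
theorem mgf_qi (h : Pairing χ) {Q : Set Γ} (hQ : QI Q) (A : Finset Γ) (hA : (A : Set Γ) ⊆ Q)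
    (a : Γ → ℂ) :
    ∫ t, Real.exp ((∑ n ∈ A, a n * χ n t).re) ∂μ ≤ Real.exp ((∑ n ∈ A, ‖a n‖ ^ 2) / 2) := by
  classical
  -- the pointwise bound
  have hpt : ∀ t, Real.exp ((∑ n ∈ A, a n * χ n t).re) ≤
      ∏ n ∈ A, (Real.cosh ‖a n‖ + (ph (a n) * χ n t).re * Real.sinh ‖a n‖) := by
    intro t
    rw [Complex.re_sum, Real.exp_sum]
    apply Finset.prod_le_prod
    · intro n _
      exact (Real.exp_pos _).le
    · intro n _
      have h1 : (a n * χ n t).re = (ph (a n) * χ n t).re * ‖a n‖ := by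
        conv_lhs => rw [← mul_ph (a n)]
        rw [mul_assoc, Complex.re_ofReal_mul]
        ring
      rw [h1]
      apply Real.exp_mul_le_cosh_add_mul_sinh
      refine (Complex.abs_re_le_norm _).trans ?_
      rw [norm_mul, h.norm, mul_one]
      exact norm_ph_le _
  -- the expansion
  have hexp : ∀ t, ((∏ n ∈ A, (Real.cosh ‖a n‖ + (ph (a n) * χ n t).re * Real.sinh ‖a n‖) : ℝ) : ℂ) =
      ∑ p ∈ Fintype.piFinset (fun _ : A => ({-1, 0, 1} : Finset ℤ)),
        (∏ i : A, coef (a i) (p i)) * χ (∑ i : A, p i • (i : Γ)) t := by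
    intro t
    rw [Complex.ofReal_prod, ← Finset.prod_coe_sort]
    simp only [factor_eq h]
    rw [Finset.prod_univ_sum]
    apply Finset.sum_congr rfl
    intro p _
    rw [Finset.prod_mul_distrib, h.sum]
  have hint : ∀ n, Integrable (χ n) μ := fun n => by
    refine Integrable.of_bound (C := 1) (h.meas n).aestronglyMeasurable ?_
    exact ae_of_all _ fun t => (h.norm n t).le
  have hval : ((∫ t, ∏ n ∈ A, (Real.cosh ‖a n‖ + (ph (a n) * χ n t).re * Real.sinh ‖a n‖) ∂μ : ℝ) : ℂ) =
      ((∏ n ∈ A, Real.cosh ‖a n‖ : ℝ) : ℂ) := by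
    rw [← integral_complex_ofReal, integral_congr_ae (ae_of_all _ hexp)]
    rw [integral_finsetSum _ fun p _ => (hint _).const_mul _]
    rw [Finset.sum_eq_single (fun _ => 0)]
    · rw [integral_const_mul]
      have h1 : ∑ i : A, (fun _ => (0 : ℤ)) i • (i : Γ) = 0 := by simp
      rw [h1]
      simp only [h.zero, integral_const, measureReal_def, measure_univ, ENNReal.toReal_one, one_smul,
        mul_one]
      rw [Complex.ofReal_prod, ← Finset.prod_coe_sort A (fun n => ((Real.cosh ‖a n‖ : ℝ) : ℂ))]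
      apply Finset.prod_congr rfl
      intro i _
      simp [coef]
    · intro p hp hp0
      rw [integral_const_mul, h.integral, mul_zero]
      intro hsum
      apply hp0
      rw [Fintype.mem_piFinset] at hp
      have h1 := hQ A hA (fun γ => if hγ : γ ∈ A then p ⟨γ, hγ⟩ else 0) (by
        intro γ hγ
        simp only [dif_pos hγ]
        have := hp ⟨γ, hγ⟩
        simpa using this) (by
        rw [← hsum, ← Finset.sum_coe_sort]
        apply Finset.sum_congr rfl
        intro i _
        simp)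
      ext i
      have h2 := h1 i i.2
      simpa using h2
    · intro hnot
      exact absurd (by simp) hnot
  have hval' : ∫ t, ∏ n ∈ A, (Real.cosh ‖a n‖ + (ph (a n) * χ n t).re * Real.sinh ‖a n‖) ∂μ =
      ∏ n ∈ A, Real.cosh ‖a n‖ := by exact_mod_cast hval
  have hbd : ∀ t, |(∑ n ∈ A, a n * χ n t).re| ≤ ∑ n ∈ A, ‖a n‖ := by
    intro t
    refine (Complex.abs_re_le_norm _).trans ((norm_sum_le _ _).trans (le_of_eq ?_))
    apply Finset.sum_congr rfl
    intro n _
    rw [norm_mul, h.norm, mul_one]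
  have hmeas : Measurable fun t => (∑ n ∈ A, a n * χ n t).re :=
    Complex.measurable_re.comp (Finset.measurable_sum _ fun n _ => (h.meas n).const_mul _)
  calc ∫ t, Real.exp ((∑ n ∈ A, a n * χ n t).re) ∂μ
      ≤ ∫ t, ∏ n ∈ A, (Real.cosh ‖a n‖ + (ph (a n) * χ n t).re * Real.sinh ‖a n‖) ∂μ := by
        apply integral_mono
        · refine Integrable.of_bound (C := Real.exp (∑ n ∈ A, ‖a n‖))
            (Real.measurable_exp.comp hmeas).aestronglyMeasurable (ae_of_all _ fun t => ?_)
          rw [Real.norm_eq_abs, Real.abs_exp, Real.exp_le_exp]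
          exact (le_abs_self _).trans (hbd t)
        · refine Integrable.of_bound (C := ∏ n ∈ A, (Real.cosh ‖a n‖ + Real.sinh ‖a n‖))
            (Finset.measurable_prod _ fun n _ => ?_).aestronglyMeasurable (ae_of_all _ fun t => ?_)
          · exact ((Complex.measurable_re.comp ((h.meas n).const_mul _)).mul_const _).const_add _
          · rw [norm_prod]
            apply Finset.prod_le_prod (fun _ _ => norm_nonneg _)
            intro n _
            refine (norm_add_le _ _).trans ?_
            rw [Real.norm_of_nonneg (Real.cosh_pos _).le, norm_mul,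
              Real.norm_of_nonneg (Real.sinh_nonneg_iff.2 (norm_nonneg _))]
            have h1 : ‖(ph (a n) * χ n t).re‖ ≤ 1 := by
              rw [Real.norm_eq_abs]
              refine (Complex.abs_re_le_norm _).trans ?_
              rw [norm_mul, h.norm, mul_one]
              exact norm_ph_le _
            have h2 : 0 ≤ Real.sinh ‖a n‖ := Real.sinh_nonneg_iff.2 (norm_nonneg _)
            nlinarith
        · exact hpt
    _ = ∏ n ∈ A, Real.cosh ‖a n‖ := hval'
    _ ≤ ∏ n ∈ A, Real.exp (‖a n‖ ^ 2 / 2) := by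
        apply Finset.prod_le_prod
        · intro n _
          exact (Real.cosh_pos _).le
        · intro n _
          exact Real.cosh_le_exp_half_sq _
    _ = Real.exp ((∑ n ∈ A, ‖a n‖ ^ 2) / 2) := by
        rw [← Real.exp_sum, Finset.sum_div]

/-- The annihilator of a finite set. -/
def ann (χ : Γ → G → ℂ) (A : Finset Γ) : Set G := {t | ∀ n ∈ A, χ n t = 1}

theorem measurableSet_ann (h : Pairing χ) (A : Finset Γ) : MeasurableSet (ann χ A) := by
  have : ann χ A = ⋂ n ∈ A, (χ n) ⁻¹' {1} := by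
    ext t
    simp [ann]
  rw [this]
  exact Finset.measurableSet_biInter _ fun n _ => (h.meas n) (measurableSet_singleton _)

theorem ann_closure (h : Pairing χ) {A : Finset Γ} {t : G} (ht : t ∈ ann χ A) {n : Γ}
    (hn : n ∈ AddSubgroup.closure (A : Set Γ)) : χ n t = 1 := by
  induction hn using AddSubgroup.closure_induction with
  | mem x hx => exact ht x hx
  | zero => exact h.zero t
  | add x y _ _ hx hy => rw [h.add, hx, hy, mul_one]
  | neg x _ hx => rw [h.neg, hx, map_one]

theorem ann_measure (h : Pairing χ) (A : Finset Γ)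
    (hfin : Finite (AddSubgroup.closure (A : Set Γ))) :
    1 ≤ (Nat.card (AddSubgroup.closure (A : Set Γ)) : ENNReal) * μ (ann χ A) := by
  classical
  set M := AddSubgroup.closure (A : Set Γ) with hM
  let _ := Fintype.ofFinite M
  let ρ : G → AddChar M ℂ := fun t =>
    { toFun := fun m => χ (m : Γ) t
      map_zero_eq_one' := by simp [h.zero]
      map_add_eq_mul' := fun a b => by
        simp only [AddSubgroup.coe_add]
        exact h.add _ _ _ }
  have hρ : ∀ t m, ρ t m = χ (m : Γ) t := fun _ _ => rfl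
  have hcardψ : Fintype.card (AddChar M ℂ) = Nat.card M := by
    rw [AddChar.card_eq, Nat.card_eq_fintype_card]
  have hcover : (Set.univ : Set G) ⊆ ⋃ ψ ∈ (Finset.univ : Finset (AddChar M ℂ)), ρ ⁻¹' {ψ} := by
    intro t _
    simp
  have hfib : ∀ ψ, μ (ρ ⁻¹' {ψ}) ≤ μ (ann χ A) := by
    intro ψ
    by_cases hne : (ρ ⁻¹' {ψ}).Nonempty
    · obtain ⟨t0, ht0⟩ := hne
      have hsub : ρ ⁻¹' {ψ} ⊆ (fun t => -t0 + t) ⁻¹' (ann χ A) := by
        intro t ht
        have h1 : ρ t = ρ t0 := by
          rw [Set.mem_preimage, Set.mem_singleton_iff] at ht ht0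
          rw [ht, ht0]
        intro n hn
        have h2 : χ n t = χ n t0 := by
          have := congrArg (fun ψ : AddChar M ℂ => ψ ⟨n, AddSubgroup.subset_closure hn⟩) h1
          simpa [hρ] using this
        have h3 : χ n (t0 + (-t0 + t)) = χ n t0 * χ n (-t0 + t) := h.addr _ _ _
        rw [add_neg_cancel_left, h2] at h3
        have h4 : χ n t0 ≠ 0 := by
          intro h5
          have := h.norm n t0
          rw [h5, norm_zero] at this
          exact zero_ne_one this
        have h6 : χ n t0 * χ n (-t0 + t) = χ n t0 * 1 := by rw [← h3, mul_one]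
        exact mul_left_cancel₀ h4 h6
      refine (measure_mono hsub).trans (le_of_eq ?_)
      exact measure_preimage_add μ (-t0) (ann χ A)
    · rw [Set.not_nonempty_iff_eq_empty] at hne
      rw [hne, measure_empty]
      exact zero_le
  calc (1 : ENNReal) = μ Set.univ := measure_univ.symm
    _ ≤ μ (⋃ ψ ∈ (Finset.univ : Finset (AddChar M ℂ)), ρ ⁻¹' {ψ}) := measure_mono hcover
    _ ≤ ∑ ψ : AddChar M ℂ, μ (ρ ⁻¹' {ψ}) := measure_biUnion_finset_le _ _
    _ ≤ ∑ _ψ : AddChar M ℂ, μ (ann χ A) := Finset.sum_le_sum fun ψ _ => hfib ψ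
    _ = (Nat.card M : ENNReal) * μ (ann χ A) := by
        rw [Finset.sum_const, Finset.card_univ, hcardψ, nsmul_eq_mul]

/-- The size condition follows from the Gaussian moments of the sums `∑_{n ∈ A} χ n`. -/
theorem small_of_gauss (h : Pairing χ) (Λ : Set Γ)
    (hfin : ∀ D : Finset Γ, (D : Set Γ) ⊆ Λ → Finite (AddSubgroup.closure (D : Set Γ)))
    (h0 : (0 : Γ) ∉ Λ) (C : ℝ) (hC : 0 < C)
    (hΛ : ∀ A : Finset Γ, (A : Set Γ) ⊆ Λ → A.Nonempty →
      ∫ t, Real.exp (‖∑ n ∈ A, χ n t‖ ^ 2 / (C * A.card)) ∂μ ≤ Real.exp 1) :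
    ∃ K : ℕ, Small K Λ := by
  refine ⟨⌈3 * C⌉₊, ?_⟩
  intro A hA
  have hfinA := hfin A hA
  by_cases hAe : A.Nonempty
  swap
  · rw [Finset.not_nonempty_iff_eq_empty] at hAe
    subst hAe
    simp only [Finset.card_empty, pow_zero]
    apply Nat.one_le_pow
    exact Nat.card_pos
  have hAcard : (0 : ℝ) < A.card := by exact_mod_cast Finset.card_pos.mpr hAe
  set N := Nat.card (AddSubgroup.closure (A : Set Γ)) with hN
  have hN2 : 2 ≤ N := by
    obtain ⟨x, hx⟩ := hAe
    have hx0 : x ≠ 0 := by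
      rintro rfl
      exact h0 (hA hx)
    have : Nontrivial (AddSubgroup.closure (A : Set Γ)) := ⟨⟨⟨x, AddSubgroup.subset_closure hx⟩, 0,
      fun h => hx0 (by
        have := congrArg Subtype.val h
        simpa using this)⟩⟩
    exact Finite.one_lt_card
  have hNpos : (0 : ℝ) < N := by exact_mod_cast (by omega : 0 < N)
  have hμ := ann_measure (μ := μ) h A hfinA
  have hμ' : 1 ≤ (N : ℝ) * (μ (ann χ A)).toReal := by
    have h1 : (N : ENNReal) * μ (ann χ A) ≠ ⊤ := ENNReal.mul_ne_top (ENNReal.natCast_ne_top N)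
      (measure_ne_top μ _)
    have h2 := ENNReal.toReal_mono h1 hμ
    rw [ENNReal.toReal_one, ENNReal.toReal_mul, ENNReal.toReal_natCast] at h2
    exact h2
  have hbd : ∀ t, ‖∑ n ∈ A, χ n t‖ ≤ A.card := by
    intro t
    refine (norm_sum_le _ _).trans (le_of_eq ?_)
    simp [h.norm]
  have hmeas : Measurable fun t => Real.exp (‖∑ n ∈ A, χ n t‖ ^ 2 / (C * A.card)) :=
    Real.measurable_exp.comp
      ((((Finset.measurable_sum _ fun n _ => h.meas n).norm).pow_const 2).div_const _)
  have hint : Integrable (fun t => Real.exp (‖∑ n ∈ A, χ n t‖ ^ 2 / (C * A.card))) μ := by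
    refine Integrable.of_bound (C := Real.exp ((A.card : ℝ) ^ 2 / (C * A.card)))
      hmeas.aestronglyMeasurable (ae_of_all _ fun t => ?_)
    rw [Real.norm_eq_abs, Real.abs_exp, Real.exp_le_exp]
    have := hbd t
    gcongr
  have hset : ∫ t in ann χ A, Real.exp ((A.card : ℝ) / C) ∂μ ≤ Real.exp 1 := by
    refine le_trans ?_ (hΛ A hA hAe)
    refine le_trans ?_ (setIntegral_le_integral (s := ann χ A) hint (ae_of_all _ fun t => (Real.exp_pos _).le))
    apply setIntegral_mono_on (integrable_const _).integrableOn hint.integrableOn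
      (measurableSet_ann h A)
    intro t ht
    rw [Real.exp_le_exp]
    have h1 : ∑ n ∈ A, χ n t = A.card := by
      rw [Finset.sum_congr rfl ht]
      simp
    rw [h1, Complex.norm_natCast]
    apply le_of_eq
    field_simp
  rw [setIntegral_const, smul_eq_mul, measureReal_def] at hset
  have h2 : Real.exp ((A.card : ℝ) / C) ≤ N * Real.exp 1 := by
    calc Real.exp ((A.card : ℝ) / C) = 1 * Real.exp ((A.card : ℝ) / C) := (one_mul _).symm
      _ ≤ ((N : ℝ) * (μ (ann χ A)).toReal) * Real.exp ((A.card : ℝ) / C) := by gcongr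
      _ = N * ((μ (ann χ A)).toReal * Real.exp ((A.card : ℝ) / C)) := by ring
      _ ≤ N * Real.exp 1 := by gcongr
  have h3 : (A.card : ℝ) / C ≤ Real.log N + 1 := by
    have := Real.log_le_log (Real.exp_pos _) h2
    rwa [Real.log_exp, Real.log_mul hNpos.ne' (Real.exp_pos _).ne', Real.log_exp] at this
  have hlog2 : (0.6931471803 : ℝ) < Real.log 2 := Real.log_two_gt_d9
  have hlog2' : Real.log 2 ≤ 1 := by
    have := Real.log_two_lt_d9
    linarith
  have hlogN : Real.log 2 ≤ Real.log N := Real.log_le_log (by norm_num) (by exact_mod_cast hN2)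
  have h4 : (A.card : ℝ) ≤ 3 * C * Real.log N := by
    rw [div_le_iff₀ hC] at h3
    nlinarith
  have h5 : (A.card : ℝ) * Real.log 2 ≤ (⌈3 * C⌉₊ : ℝ) * Real.log N := by
    calc (A.card : ℝ) * Real.log 2 ≤ A.card * 1 := mul_le_mul_of_nonneg_left hlog2' (by positivity)
      _ ≤ 3 * C * Real.log N := by rw [mul_one]; exact h4
      _ ≤ _ := mul_le_mul_of_nonneg_right (Nat.le_ceil _) (by linarith)
  have h6 : Real.log ((2 : ℝ) ^ A.card) ≤ Real.log ((N : ℝ) ^ ⌈3 * C⌉₊) := by
    rw [Real.log_pow, Real.log_pow]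
    exact h5
  have h7 := (Real.log_le_log_iff (by positivity) (by positivity)).mp h6
  exact_mod_cast h7

end Pool.Agent.N245.SG
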