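import Mathlib
import Pool.Agent.N245.SG.Char

/-! # Subgaussian sets and finite unions of quasi-independent sets -/

set_option autoImplicit false
set_option linter.unusedSectionVars false

open MeasureTheory Filter Topology
open scoped Nat ComplexConjugate

namespace Pool.Agent.N245.SG

universe u

open Pool.Agent.H337R3.Sid

variable {G : Type*} [AddCommGroup G] [MeasurableSpace G] {Γ : Type u} [AddCommGroup Γ]
  [DecidableEq Γ] {χ : Γ → G → ℂ}

/-- The norm `ψ₂`. -/
noncomputable def psi {G : Type*} [MeasurableSpace G] (μ : Measure G) (f : G → ℂ) : ℝ :=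
  sInf {c : ℝ | 0 < c ∧ ∫ t, Real.exp (‖f t‖ ^ 2 / c ^ 2) ∂μ ≤ Real.exp 1}

variable (μ : Measure G) [IsProbabilityMeasure μ] [μ.IsAddLeftInvariant] [MeasurableAdd G]

/-- Subgaussian sets. -/
def SubG (χ : Γ → G → ℂ) (Λ : Set Γ) : Prop :=
  ∃ C : ℝ, ∀ (A : Finset Γ) (a : Γ → ℂ), (A : Set Γ) ⊆ Λ →
    psi μ (fun t => ∑ n ∈ A, a n * χ n t) ≤ C * Real.sqrt (∑ n ∈ A, ‖a n‖ ^ 2)

theorem small_of_subG (h : Pairing χ) (Λ : Set Γ)
    (hfin : ∀ D : Finset Γ, (D : Set Γ) ⊆ Λ → Finite (AddSubgroup.closure (D : Set Γ)))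
    (h0 : (0 : Γ) ∉ Λ) (hΛ : SubG μ χ Λ) : ∃ K : ℕ, Small K Λ := by
  obtain ⟨C, hC⟩ := hΛ
  set C' := max C 0 + 1 with hC'
  have hC'0 : 0 < C' := by positivity
  have hCC' : C < C' := by
    have := le_max_left C 0
    linarith
  refine small_of_gauss (μ := μ) h Λ hfin h0 (C' ^ 2) (by positivity) ?_
  intro A hA hne
  have hAcard : (0 : ℝ) < A.card := by exact_mod_cast Finset.card_pos.mpr hne
  have h1 := hC A (fun _ => 1) hA
  simp only [one_mul, norm_one, one_pow, Finset.sum_const, nsmul_eq_mul, mul_one] at h1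
  have hs : 0 < Real.sqrt A.card := Real.sqrt_pos.2 hAcard
  have h2 : psi μ (fun t => ∑ n ∈ A, χ n t) < C' * Real.sqrt A.card :=
    h1.trans_lt (mul_lt_mul_of_pos_right hCC' hs)
  have hbd : ∀ t, ‖∑ n ∈ A, χ n t‖ ≤ A.card := by
    intro t
    refine (norm_sum_le _ _).trans (le_of_eq ?_)
    simp [h.norm]
  have hint : ∀ c : ℝ, Integrable (fun t => Real.exp (‖∑ n ∈ A, χ n t‖ ^ 2 / c ^ 2)) μ := by
    intro c
    refine Integrable.of_bound (C := Real.exp ((A.card : ℝ) ^ 2 / c ^ 2))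
      (Real.measurable_exp.comp ((((Finset.measurable_sum _ fun n _ => h.meas n).norm).pow_const
        2).div_const _)).aestronglyMeasurable (ae_of_all _ fun t => ?_)
    rw [Real.norm_eq_abs, Real.abs_exp, Real.exp_le_exp]
    have := hbd t
    gcongr
  -- the set is nonempty
  have hne' : {c : ℝ | 0 < c ∧ ∫ t, Real.exp (‖∑ n ∈ A, χ n t‖ ^ 2 / c ^ 2) ∂μ ≤ Real.exp 1}.Nonempty := by
    refine ⟨A.card, hAcard, ?_⟩
    have h3 : ∫ t, Real.exp (‖∑ n ∈ A, χ n t‖ ^ 2 / (A.card : ℝ) ^ 2) ∂μ ≤ ∫ _t, Real.exp 1 ∂μ := by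
      apply integral_mono (hint _) (integrable_const _)
      intro t
      simp only [Real.exp_le_exp]
      rw [div_le_one (by positivity)]
      exact pow_le_pow_left₀ (norm_nonneg _) (hbd t) 2
    simpa using h3
  obtain ⟨c, ⟨hc0, hc⟩, hcC⟩ := exists_lt_of_csInf_lt hne' h2
  refine le_trans ?_ hc
  apply integral_mono _ (hint c)
  · intro t
    simp only [Real.exp_le_exp]
    have h4 : c ^ 2 ≤ C' ^ 2 * A.card := by
      calc c ^ 2 ≤ (C' * Real.sqrt A.card) ^ 2 := pow_le_pow_left₀ hc0.le hcC.le 2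
        _ = C' ^ 2 * A.card := by rw [mul_pow, Real.sq_sqrt hAcard.le]
    gcongr
  · have h5 := hint (C' * Real.sqrt A.card)
    rw [mul_pow, Real.sq_sqrt hAcard.le] at h5
    exact h5

theorem qi_mono {Q R : Set Γ} (hQ : QI Q) (h : R ⊆ Q) : QI R := fun A hA ξ hξ hs =>
  hQ A (hA.trans h) ξ hξ hs

theorem qi_gauss (h : Pairing χ) {Q : Set Γ} (hQ : QI Q) (A : Finset Γ) (hA : (A : Set Γ) ⊆ Q)
    (a : Γ → ℂ) {S : ℝ} (hS : 0 < S) (hAS : ∑ n ∈ A, ‖a n‖ ^ 2 ≤ S) :
    ∫ t, Real.exp (‖∑ n ∈ A, a n * χ n t‖ ^ 2 / (18 * S)) ∂μ ≤ Real.exp 1 := by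
  set f : G → ℂ := fun t => ∑ n ∈ A, a n * χ n t with hf
  have hfm : Measurable f := Finset.measurable_sum _ fun n _ => (h.meas n).const_mul _
  set B : ℝ := ∑ n ∈ A, ‖a n‖ with hBdef
  have hfB : ∀ t, ‖f t‖ ≤ B := by
    intro t
    refine (norm_sum_le _ _).trans (le_of_eq ?_)
    apply Finset.sum_congr rfl
    intro n _
    rw [norm_mul, h.norm, mul_one]
  have hs : 0 < Real.sqrt S := Real.sqrt_pos.2 hS
  -- real parts of rotations
  have hrot : ∀ w : ℂ, ‖w‖ = 1 → ∫ t, Real.exp (((w * f t).re / Real.sqrt S) ^ 2 / 9) ∂μ ≤ Real.exp 1 := by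
    intro w hw
    refine gauss_bound (B := B / Real.sqrt S) ?_ ?_ ?_
    · exact (Complex.measurable_re.comp (hfm.const_mul w)).div_const _
    · intro t
      rw [abs_div, abs_of_pos hs]
      gcongr
      refine (Complex.abs_re_le_norm _).trans ?_
      rw [norm_mul, hw, one_mul]
      exact hfB t
    · intro l
      have h1 := mgf_qi (μ := μ) h hQ A hA (fun n => ((l / Real.sqrt S : ℝ) : ℂ) * w * a n)
      have h2 : ∀ t, (∑ n ∈ A, (((l / Real.sqrt S : ℝ) : ℂ) * w * a n) * χ n t).re =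
          l * ((w * f t).re / Real.sqrt S) := by
        intro t
        have h3 : ∑ n ∈ A, (((l / Real.sqrt S : ℝ) : ℂ) * w * a n) * χ n t =
            ((l / Real.sqrt S : ℝ) : ℂ) * (w * f t) := by
          rw [hf, Finset.mul_sum, Finset.mul_sum]
          apply Finset.sum_congr rfl
          intro n _
          ring
        rw [h3, Complex.re_ofReal_mul]
        ring
      simp only [h2] at h1
      refine h1.trans ?_
      rw [Real.exp_le_exp]
      have h4 : ∑ n ∈ A, ‖((l / Real.sqrt S : ℝ) : ℂ) * w * a n‖ ^ 2 = l ^ 2 / S * ∑ n ∈ A, ‖a n‖ ^ 2 := by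
        rw [Finset.mul_sum]
        apply Finset.sum_congr rfl
        intro n _
        rw [norm_mul, norm_mul, hw, Complex.norm_real, Real.norm_eq_abs, mul_one, mul_pow, sq_abs,
          div_pow, Real.sq_sqrt hS.le]
      rw [h4]
      have h5 : l ^ 2 / S * ∑ n ∈ A, ‖a n‖ ^ 2 ≤ l ^ 2 / S * S := by gcongr
      rw [div_mul_cancel₀ _ hS.ne'] at h5
      linarith
  have h1 := hrot 1 (by simp)
  have h2 := hrot (-Complex.I) (by simp)
  have hre : ∀ t, (1 * f t).re = (f t).re := fun t => by rw [one_mul]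
  have him : ∀ t, (-Complex.I * f t).re = (f t).im := fun t => by
    simp [Complex.mul_re]
  simp only [hre, div_pow, Real.sq_sqrt hS.le] at h1
  simp only [him, div_pow, Real.sq_sqrt hS.le] at h2
  have hint : ∀ g : G → ℝ, Measurable g → (∀ t, |g t| ≤ B) →
      Integrable (fun t => Real.exp (g t ^ 2 / S / 9)) μ := by
    intro g hg hgB
    refine Integrable.of_bound (C := Real.exp (B ^ 2 / S / 9))
      (Real.measurable_exp.comp (((hg.pow_const 2).div_const _).div_const _)).aestronglyMeasurable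
      (ae_of_all _ fun t => ?_)
    rw [Real.norm_eq_abs, Real.abs_exp, Real.exp_le_exp]
    have h3 : g t ^ 2 ≤ B ^ 2 := by
      rw [← sq_abs]
      exact pow_le_pow_left₀ (abs_nonneg _) (hgB t) 2
    gcongr
  have hi1 := hint (fun t => (f t).re) (Complex.measurable_re.comp hfm)
    (fun t => (Complex.abs_re_le_norm _).trans (hfB t))
  have hi2 := hint (fun t => (f t).im) (Complex.measurable_im.comp hfm)
    (fun t => (Complex.abs_im_le_norm _).trans (hfB t))
  calc ∫ t, Real.exp (‖f t‖ ^ 2 / (18 * S)) ∂μ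
      ≤ ∫ t, (Real.exp ((f t).re ^ 2 / S / 9) + Real.exp ((f t).im ^ 2 / S / 9)) / 2 ∂μ := by
        apply integral_mono _ ((hi1.add hi2).div_const 2)
        · intro t
          simp only [Pi.add_apply]
          have h3 : ‖f t‖ ^ 2 / (18 * S) = ((f t).re ^ 2 / S / 9 + (f t).im ^ 2 / S / 9) / 2 := by
            rw [← Complex.normSq_eq_norm_sq, Complex.normSq_apply]
            field_simp
            ring
          rw [h3]
          have h4 := two_mul_le_add_sq (Real.exp ((f t).re ^ 2 / S / 9 / 2)) (Real.exp ((f t).im ^ 2 / S / 9 / 2))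
          rw [← Real.exp_nat_mul, ← Real.exp_nat_mul, mul_assoc, ← Real.exp_add] at h4
          have e1 : ((2 : ℕ) : ℝ) * ((f t).re ^ 2 / S / 9 / 2) = (f t).re ^ 2 / S / 9 := by
            push_cast; ring
          have e2 : ((2 : ℕ) : ℝ) * ((f t).im ^ 2 / S / 9 / 2) = (f t).im ^ 2 / S / 9 := by
            push_cast; ring
          have e3 : (f t).re ^ 2 / S / 9 / 2 + (f t).im ^ 2 / S / 9 / 2 =
              ((f t).re ^ 2 / S / 9 + (f t).im ^ 2 / S / 9) / 2 := by ring
          rw [e1, e2, e3] at h4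
          linarith
        · refine Integrable.of_bound (C := Real.exp (B ^ 2 / (18 * S)))
            (Real.measurable_exp.comp (((hfm.norm).pow_const 2).div_const _)).aestronglyMeasurable
            (ae_of_all _ fun t => ?_)
          rw [Real.norm_eq_abs, Real.abs_exp, Real.exp_le_exp]
          have h3 : ‖f t‖ ^ 2 ≤ B ^ 2 := pow_le_pow_left₀ (norm_nonneg _) (hfB t) 2
          gcongr
    _ = (∫ t, Real.exp ((f t).re ^ 2 / S / 9) ∂μ + ∫ t, Real.exp ((f t).im ^ 2 / S / 9) ∂μ) / 2 := by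
        rw [integral_div, integral_add hi1 hi2]
    _ ≤ Real.exp 1 := by linarith

theorem subG_of_union (h : Pairing χ) {k : ℕ} {Q : Fin k → Set Γ} (hQ : ∀ i, QI (Q i)) {Λ : Set Γ}
    (hΛ : Λ = ⋃ i, Q i) : SubG μ χ Λ := by
  classical
  refine ⟨5 * k, ?_⟩
  intro A a hA
  have hbdd : BddBelow {c : ℝ | 0 < c ∧
      ∫ t, Real.exp (‖∑ n ∈ A, a n * χ n t‖ ^ 2 / c ^ 2) ∂μ ≤ Real.exp 1} :=
    ⟨0, fun c hc => hc.1.le⟩
  set S := ∑ n ∈ A, ‖a n‖ ^ 2 with hS
  have hS0 : 0 ≤ S := Finset.sum_nonneg fun n _ => by positivity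
  rcases hS0.eq_or_lt with h1 | h1
  · -- all coefficients vanish
    have hz : ∀ n ∈ A, a n = 0 := by
      intro n hn
      have h2 := (Finset.sum_eq_zero_iff_of_nonneg (fun n _ => by positivity)).1 h1.symm n hn
      have h3 : ‖a n‖ = 0 := by
        simpa using h2
      exact norm_eq_zero.1 h3
    rw [← h1, Real.sqrt_zero, mul_zero]
    apply le_of_forall_pos_le_add
    intro ε hε
    rw [zero_add]
    apply csInf_le hbdd
    refine ⟨hε, ?_⟩
    have h4 : ∀ t, ∑ n ∈ A, a n * χ n t = 0 := fun t =>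
      Finset.sum_eq_zero fun n hn => by rw [hz n hn, zero_mul]
    simp only [h4, norm_zero]
    simp
  · -- split into pieces
    have hAne : A.Nonempty := by
      rw [Finset.nonempty_iff_ne_empty]
      intro h2
      rw [hS, h2, Finset.sum_empty] at h1
      exact lt_irrefl _ h1
    have hidx : ∀ n : Γ, n ∈ A → ∃ i, n ∈ Q i := by
      intro n hn
      have h2 := hA hn
      rw [hΛ] at h2
      exact Set.mem_iUnion.1 h2
    obtain ⟨n0, hn0⟩ := hAne
    obtain ⟨i0, _⟩ := hidx n0 hn0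
    have hk : 0 < k := i0.pos
    have hkR : (0 : ℝ) < k := by exact_mod_cast hk
    let ix : Γ → Fin k := fun n => if hn : n ∈ A then (hidx n hn).choose else i0
    have hix : ∀ n ∈ A, n ∈ Q (ix n) := by
      intro n hn
      simp only [ix, dif_pos hn]
      exact (hidx n hn).choose_spec
    have hpiece : ∀ i, ∫ t, Real.exp (‖∑ n ∈ A.filter (fun n => ix n = i), a n * χ n t‖ ^ 2 / (18 * S)) ∂μ
        ≤ Real.exp 1 := by
      intro i
      apply qi_gauss μ h (hQ i) _ _ a h1
      · apply Finset.sum_le_sum_of_subset_of_nonneg (Finset.filter_subset _ _)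
        intro n _ _
        positivity
      · intro n hn
        rw [Finset.mem_coe, Finset.mem_filter] at hn
        rw [← hn.2]
        exact hix n hn.1
    apply csInf_le hbdd
    refine ⟨by positivity, ?_⟩
    set B : ℝ := ∑ n ∈ A, ‖a n‖ with hBdef
    have hfB : ∀ (D : Finset Γ), D ⊆ A → ∀ t, ‖∑ n ∈ D, a n * χ n t‖ ≤ B := by
      intro D hD t
      refine (norm_sum_le _ _).trans ?_
      calc ∑ n ∈ D, ‖a n * χ n t‖ = ∑ n ∈ D, ‖a n‖ := by
            apply Finset.sum_congr rfl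
            intro n _
            rw [norm_mul, h.norm, mul_one]
        _ ≤ B := Finset.sum_le_sum_of_subset_of_nonneg hD fun n _ _ => norm_nonneg _
    have hint : ∀ (D : Finset Γ), D ⊆ A → ∀ c : ℝ, 0 ≤ c →
        Integrable (fun t => Real.exp (‖∑ n ∈ D, a n * χ n t‖ ^ 2 / c)) μ := by
      intro D hD c hc
      refine Integrable.of_bound (C := Real.exp (B ^ 2 / c))
        (Real.measurable_exp.comp ((((Finset.measurable_sum _ fun n _ => (h.meas n).const_mul _).norm).pow_const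
          2).div_const _)).aestronglyMeasurable (ae_of_all _ fun t => ?_)
      rw [Real.norm_eq_abs, Real.abs_exp, Real.exp_le_exp]
      have := hfB D hD t
      gcongr
    have hpt : ∀ t, Real.exp (‖∑ n ∈ A, a n * χ n t‖ ^ 2 / (5 * k * Real.sqrt S) ^ 2) ≤
        ∑ i : Fin k, (1 / (k : ℝ)) * Real.exp (‖∑ n ∈ A.filter (fun n => ix n = i), a n * χ n t‖ ^ 2 / (18 * S)) := by
      intro t
      have e1 : ∑ n ∈ A, a n * χ n t = ∑ i : Fin k, ∑ n ∈ A.filter (fun n => ix n = i), a n * χ n t :=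
        (Finset.sum_fiberwise A ix _).symm
      have e2 : ‖∑ n ∈ A, a n * χ n t‖ ^ 2 ≤
          k * ∑ i : Fin k, ‖∑ n ∈ A.filter (fun n => ix n = i), a n * χ n t‖ ^ 2 := by
        rw [e1]
        calc ‖∑ i : Fin k, ∑ n ∈ A.filter (fun n => ix n = i), a n * χ n t‖ ^ 2
            ≤ (∑ i : Fin k, ‖∑ n ∈ A.filter (fun n => ix n = i), a n * χ n t‖) ^ 2 :=
              pow_le_pow_left₀ (norm_nonneg _) (norm_sum_le _ _) 2
          _ ≤ ((Finset.univ : Finset (Fin k)).card : ℝ) *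
              ∑ i : Fin k, ‖∑ n ∈ A.filter (fun n => ix n = i), a n * χ n t‖ ^ 2 :=
              sq_sum_le_card_mul_sum_sq
          _ = _ := by rw [Finset.card_univ, Fintype.card_fin]
      have e3 : ‖∑ n ∈ A, a n * χ n t‖ ^ 2 / (5 * k * Real.sqrt S) ^ 2 ≤
          ∑ i : Fin k, (1 / (k : ℝ)) * (‖∑ n ∈ A.filter (fun n => ix n = i), a n * χ n t‖ ^ 2 / (18 * S)) := by
        rw [mul_pow, mul_pow, Real.sq_sqrt h1.le, ← Finset.mul_sum, ← Finset.sum_div,
          div_le_iff₀ (by positivity)]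
        refine e2.trans ?_
        have e4 : 0 ≤ ∑ i : Fin k, ‖∑ n ∈ A.filter (fun n => ix n = i), a n * χ n t‖ ^ 2 :=
          Finset.sum_nonneg fun i _ => by positivity
        have e5 : 1 / (k : ℝ) * ((∑ i : Fin k, ‖∑ n ∈ A.filter (fun n => ix n = i), a n * χ n t‖ ^ 2) / (18 * S)) *
            (5 ^ 2 * (k : ℝ) ^ 2 * S) = 25 / 18 *
              (k * ∑ i : Fin k, ‖∑ n ∈ A.filter (fun n => ix n = i), a n * χ n t‖ ^ 2) := by
          field_simp
          ring
        rw [e5]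
        have e6 : 0 ≤ (k : ℝ) * ∑ i : Fin k, ‖∑ n ∈ A.filter (fun n => ix n = i), a n * χ n t‖ ^ 2 := by
          positivity
        linarith
      refine (Real.exp_le_exp.2 e3).trans ?_
      have e7 := convexOn_exp.map_sum_le (t := (Finset.univ : Finset (Fin k))) (w := fun _ => 1 / (k : ℝ))
        (p := fun i => ‖∑ n ∈ A.filter (fun n => ix n = i), a n * χ n t‖ ^ 2 / (18 * S))
        (fun i _ => by positivity) (by
          rw [Finset.sum_const, Finset.card_univ, Fintype.card_fin, nsmul_eq_mul]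
          field_simp) (fun i _ => Set.mem_univ _)
      simpa only [smul_eq_mul] using e7
    calc ∫ t, Real.exp (‖∑ n ∈ A, a n * χ n t‖ ^ 2 / (5 * k * Real.sqrt S) ^ 2) ∂μ
        ≤ ∫ t, ∑ i : Fin k, (1 / (k : ℝ)) *
            Real.exp (‖∑ n ∈ A.filter (fun n => ix n = i), a n * χ n t‖ ^ 2 / (18 * S)) ∂μ := by
          apply integral_mono (hint A (le_refl A) _ (by positivity)) _ hpt
          exact integrable_finsetSum _ fun i _ =>
            (hint _ (Finset.filter_subset _ _) _ (by positivity)).const_mul _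
      _ = ∑ i : Fin k, (1 / (k : ℝ)) *
            ∫ t, Real.exp (‖∑ n ∈ A.filter (fun n => ix n = i), a n * χ n t‖ ^ 2 / (18 * S)) ∂μ := by
          rw [integral_finsetSum _ fun i _ =>
            (hint _ (Finset.filter_subset _ _) _ (by positivity)).const_mul _]
          apply Finset.sum_congr rfl
          intro i _
          rw [integral_const_mul]
      _ ≤ ∑ _i : Fin k, (1 / (k : ℝ)) * Real.exp 1 := by
          apply Finset.sum_le_sum
          intro i _
          have := hpiece i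
          gcongr
      _ = Real.exp 1 := by
          rw [Finset.sum_const, Finset.card_univ, Fintype.card_fin, nsmul_eq_mul]
          field_simp

theorem iff_abs (h : Pairing χ) (m : ℕ) (hm : 0 < m) (Λ : Set Γ) (hexp : ∀ n ∈ Λ, m • n = 0)
    (h0 : (0 : Γ) ∉ Λ) :
    SubG μ χ Λ ↔ ∃ (k : ℕ) (Q : Fin k → Set Γ), (∀ i, QI (Q i)) ∧ Λ = ⋃ i, Q i := by
  constructor
  · intro hΛ
    obtain ⟨K, hK⟩ := small_of_subG μ h Λ (fun D hD => closure_finite m hm D
      (fun x hx => hexp x (hD (Finset.mem_coe.mpr hx)))) h0 hΛ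
    obtain ⟨Q, hQ, hΛ⟩ := finite_union m.primeFactorsList
      (fun q hq => Nat.prime_of_mem_primeFactorsList hq) K Λ
      (by rw [Nat.prod_primeFactorsList hm.ne']; exact hexp) hK
    exact ⟨_, Q, hQ, hΛ⟩
  · rintro ⟨k, Q, hQ, hΛ⟩
    exact subG_of_union μ h hQ hΛ

end Pool.Agent.N245.SG
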